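import Pool.Agent.Y742.CN.All
import Pool.Agent.Y742.GG.Main

/-!
# Varieties connected by fibrations in curves of genus at most one (helper742)
-/

set_option autoImplicit false
set_option linter.unusedSectionVars false

open MvPolynomial AlgebraicGeometry CategoryTheory

namespace Pool.Agent.Y742.CN

open Pool.Agent.W572 Pool.Agent.W572.G Pool.Agent.Y742.GG

section

variable {Ω K : Type} [Field Ω] [Field K] [Algebra Ω K] {L : IntermediateField Ω K}

lemma alg_exchange {R A : Type} [Field R] [Field A] [Algebra R A] {t u : A}
    (ht : Transcendental R t)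
    (hb : ∀ b : A, IsAlgebraic (IntermediateField.adjoin R {t}) b) (hu : Transcendental R u)
    (b : A) : IsAlgebraic (IntermediateField.adjoin R {u}) b := by
  have hind : ∀ a : A, Transcendental R a → AlgebraicIndependent R (fun _ : Unit => a) :=
    fun a ha => algebraicIndependent_unique_type_iff.2 ha
  have hbas : IsTranscendenceBasis R (fun _ : Unit => t) := by
    rw [(hind t ht).isTranscendenceBasis_iff_isAlgebraic]
    rw [← IntermediateField.isAlgebraic_adjoin_iff_top]
    rw [Set.range_const]
    exact ⟨hb⟩
  have hbas' : IsTranscendenceBasis R (fun _ : Unit => u) := by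
    apply (hind u hu).isTranscendenceBasis_of_trdeg_le_of_finite
    rw [← hbas.cardinalMk_eq_trdeg]
  have h1 := hbas'.isAlgebraic_field
  rw [Set.range_const] at h1
  exact h1.isAlgebraic b

lemma curve_double (h : IsDoubleCoverOfLine L) : ∃ t : K, Transcendental L t ∧
    ∀ b : K, IsAlgebraic (IntermediateField.adjoin L {t}) b := by
  obtain ⟨t, w, Q, ht, hw, -, -, hg⟩ := h
  refine ⟨t, ht, fun b => ?_⟩
  set F := IntermediateField.adjoin L {t} with hF
  have htF : t ∈ F := IntermediateField.subset_adjoin _ _ rfl
  have hwF : IsAlgebraic F w := by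
    have h1 : Polynomial.aeval t Q ∈ F := by
      have : Polynomial.aeval t Q = ((Polynomial.aeval (⟨t, htF⟩ : F) Q : F) : K) := by
        rw [← IntermediateField.coe_val F, ← Polynomial.aeval_algHom_apply]
        rfl
      rw [this]
      exact SetLike.coe_mem _
    have h2 : IsAlgebraic F (w ^ 2) := by
      rw [hw]
      exact isAlgebraic_algebraMap (⟨_, h1⟩ : F)
    exact h2.of_pow (by norm_num)
  have hb : b ∈ IntermediateField.adjoin L {t, w} := by rw [hg]; trivial
  have hle : IntermediateField.adjoin L {t, w} ≤ (algebraicClosure F K).restrictScalars L := by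
    rw [IntermediateField.adjoin_le_iff]
    rintro z (rfl | rfl)
    · exact mem_algebraicClosure_iff.2 (isAlgebraic_algebraMap (⟨_, htF⟩ : F))
    · exact mem_algebraicClosure_iff.2 hwF
  exact mem_algebraicClosure_iff.1 (hle hb)

lemma curve_torsor (h : IsEllipticTorsor L) : ∃ t : K, Transcendental L t ∧
    ∀ b : K, IsAlgebraic (IntermediateField.adjoin L {t}) b := by
  obtain ⟨K', _, _, _, hfin, hgal, a, b, c, X, Y, H⟩ := h
  have hX := H.trans
  have hK'alg : Algebra.IsAlgebraic K K' := Algebra.IsAlgebraic.of_finite K K'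
  -- `K'` is algebraic over `L(X)`
  have hb : ∀ z : K', IsAlgebraic (IntermediateField.adjoin L {X}) z := by
    set F := IntermediateField.adjoin L {X} with hF
    have hXF : X ∈ F := IntermediateField.subset_adjoin _ _ rfl
    have hYF : IsAlgebraic F Y := by
      have h1 : Y ^ 2 ∈ F := by
        rw [H.eqn]
        exact add_mem (add_mem (add_mem (pow_mem hXF _) (mul_mem (F.algebraMap_mem _)
          (pow_mem hXF _))) (mul_mem (F.algebraMap_mem _) hXF)) (F.algebraMap_mem _)
      exact (isAlgebraic_algebraMap (⟨_, h1⟩ : F) : IsAlgebraic F (Y ^ 2)).of_pow (by norm_num)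
    intro z
    refine H.ind (p := fun z => IsAlgebraic F z) (isAlgebraic_algebraMap (⟨_, hXF⟩ : F)) hYF
      (fun z hz => hz.tower_top F) (fun x y hx hy => hx.add hy) (fun x y hx hy => hx.mul hy)
      (fun x hx => hx.inv) z
  obtain ⟨t, ht⟩ : ∃ t : K, Transcendental L t := by
    by_contra hcon
    push Not at hcon
    have h1 : Algebra.IsAlgebraic L K := ⟨fun t => by
      have := hcon t
      rwa [Transcendental, not_not] at this⟩
    have h2 : Algebra.IsAlgebraic L K' := Algebra.IsAlgebraic.trans L K K'
    exact hX (h2.isAlgebraic X)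
  refine ⟨t, ht, fun z => ?_⟩
  have ht' : Transcendental L (algebraMap K K' t) :=
    (transcendental_algebraMap_iff (algebraMap K K').injective).2 ht
  have h3 := alg_exchange hX hb ht' (algebraMap K K' z)
  let φ := IsScalarTower.toAlgHom L K K'
  have hmap : (IntermediateField.adjoin L {t}).map φ =
      IntermediateField.adjoin L {algebraMap K K' t} := by
    rw [IntermediateField.adjoin_map, Set.image_singleton]
    rfl
  rw [← hmap] at h3
  let f : IntermediateField.adjoin L {t} →+* (IntermediateField.adjoin L {t}).map φ :=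
    (IntermediateField.equivMap (IntermediateField.adjoin L {t}) φ : _ →+* _)
  refine IsAlgebraic.of_ringHom_of_comp_eq (f := f) (g := algebraMap K K') h3
    (IntermediateField.equivMap (IntermediateField.adjoin L {t}) φ).surjective
    (algebraMap K K').injective ?_
  ext a
  rfl

end

/-- **Potential density of varieties connected by fibrations in curves of genus at most one.** -/
theorem main (k₀ : Type) [Field k₀] [CharZero k₀] (hk₀ : FG k₀) {N m : ℕ} (F : MvPolynomial (Fin N) k₀)
    (hF : Irreducible (map (algebraMap k₀ (AlgebraicClosure k₀)) F))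
    {K : Type} [Field K] [Algebra (AlgebraicClosure k₀) K] {x : Fin N → K}
    (hx : IsGenericPoint (map (algebraMap k₀ (AlgebraicClosure k₀)) F) x)
    (L : Fin m → IntermediateField (AlgebraicClosure k₀) K)
    (hL : ∀ i, IsDoubleCoverOfLine (L i) ∨ IsEllipticTorsor (L i))
    (hinv : ∀ a : K, (∀ i, IsAlgebraic (L i) a) →
      a ∈ Set.range (algebraMap (AlgebraicClosure k₀) K))
    {X : Scheme.{0}} (sX : X ⟶ Spec (.of k₀))
    (f : (hypersurface F).PartialMap X) (hf : IsDominant f.hom)
    (hfk : f.hom ≫ sX = f.domain.ι ≫ hypersurfaceStr F) : PotentiallyDense sX := by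
  obtain ⟨n, y, hy⟩ : ∃ (n : ℕ) (y : Fin n → K), IsTranscendenceBasis (AlgebraicClosure k₀) y := by
    have halg : Algebra.IsAlgebraic (Algebra.adjoin (AlgebraicClosure k₀) (Set.range x)) K := by
      rw [← IntermediateField.isAlgebraic_adjoin_iff_top, hx.generates]
      exact ⟨fun a => isAlgebraic_algebraMap (⟨a, trivial⟩ :
        (⊤ : IntermediateField (AlgebraicClosure k₀) K))⟩
    obtain ⟨s, hs, hs'⟩ := exists_isTranscendenceBasis_subset (R := AlgebraicClosure k₀) (Set.range x)
    have hfin : s.Finite := (Set.finite_range x).subset hs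
    have : Finite s := hfin
    let e := Finite.equivFin s
    exact ⟨Nat.card s, fun i => (e.symm i : K), hs'.comp_equiv e.symm⟩
  refine GG.main k₀ hk₀ F hF hx L hL (sMain _ K (Fin m) n y hy L (fun i => ?_) hinv) sX f hf hfk
  rcases hL i with h | h
  · exact curve_double h
  · exact curve_torsor h

end Pool.Agent.Y742.CN
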