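import Mathlib

/-!
# Lie algebras generated by derivations with algebraic leaves: statements (helper742)
-/

set_option autoImplicit false

namespace Pool.Agent.Y742.CN

/-- `δ` is a derivation along the ring homomorphism `e`, zero on `Ω`. -/
structure DerAlong (Ω : Type) {K M : Type} [Field Ω] [Field K] [Field M] [Algebra Ω K]
    (e : K →+* M) (δ : K → M) : Prop where
  add : ∀ a b, δ (a + b) = δ a + δ b
  mul : ∀ a b, δ (a * b) = e a * δ b + e b * δ a
  const : ∀ c : Ω, δ (algebraMap Ω K c) = 0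

/-- The differential form `∑ f l d(h l)` vanishes on the space `g` of derivations. -/
def Null {Ω K : Type} [Field Ω] [Field K] [Algebra Ω K] (g : Submodule K (Derivation Ω K K))
    {q : ℕ} (f h : Fin q → K) : Prop :=
  ∀ B ∈ g, ∑ l, f l * B (h l) = 0

/-- The derivation `D` has algebraic leaves of dimension one. -/
def AlgLeaves {Ω K : Type} [Field Ω] [Field K] [Algebra Ω K] (D : Derivation Ω K K) : Prop :=
  ∃ (L : IntermediateField Ω K) (t : K), (∀ a ∈ L, D a = 0) ∧ D t ≠ 0 ∧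
    ∀ b : K, IsAlgebraic (IntermediateField.adjoin L {t}) b

/-- The end point `e` of a chain of leaves with the starting point `s`: the forms which vanish on
`g` vanish at the end point on the directions which do not move the starting point. -/
def Tgt {Ω K : Type} [Field Ω] [Field K] [Algebra Ω K] (g : Submodule K (Derivation Ω K K))
    {M : Type} [Field M] [Algebra Ω M] (s e : K →ₐ[Ω] M) : Prop :=
  ∀ (q : ℕ) (f h : Fin q → K), Null g f h → ∀ d : Derivation Ω M M, (∀ a, d (s a) = 0) →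
    ∑ l, e (f l) * d (e (h l)) = 0

/-- J1: descent. -/
def SDescent : Prop := ∀ (Ω K ι I : Type) [Field Ω] [Field K] [Algebra Ω K]
    (D : I → Derivation Ω K K) (U : Submodule K (ι →₀ K)),
    (∀ i, ∀ u ∈ U, u.mapRange (D i) (map_zero (D i)) ∈ U) → ∀ u ∈ U,
    u ∈ Submodule.span K {v : ι →₀ K | v ∈ U ∧ ∀ i j, D i (v j) = 0}

/-- J2: the exponential of a derivation. -/
def SExp : Prop := ∀ (K M : Type) [Field K] [Field M] [CharZero M] (e : K →+* M)
    (D : Derivation ℤ K K), ∃ E : K →+* PowerSeries M, ∀ (b : K) (n : ℕ),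
    PowerSeries.coeff n (E b) = e (D^[n] b) / (n.factorial : M)

/-- J3: the coordinate derivations of a transcendence basis. -/
def SCoord : Prop := ∀ (Ω K ι : Type) [Field Ω] [CharZero Ω] [Field K] [Algebra Ω K] [Fintype ι]
    [DecidableEq ι] (x : ι → K), IsTranscendenceBasis Ω x →
    ∃ d : ι → Derivation Ω K K, (∀ i j, d i (x j) = if i = j then 1 else 0) ∧
      ∀ (M : Type) [Field M] (e : K →+* M) (δ : K → M), DerAlong Ω e δ →
        ∀ a, δ a = ∑ j, e (d j a) * δ (x j)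

/-- J3b: a derivation with given values at algebraically independent elements. -/
def SExtend : Prop := ∀ (F M : Type) [Field F] [CharZero F] [Field M] [Algebra F M] (n : ℕ)
    (z : Fin n → M), AlgebraicIndependent F z → ∀ v : Fin n → M,
    ∃ d : Derivation F M M, ∀ l, d (z l) = v l

/-- J4: the forms which vanish on `g` are generated by forms on the space of leaves of `D ∈ g`. -/
def SGenerate : Prop := ∀ (Ω K : Type) [Field Ω] [CharZero Ω] [Field K] [Algebra Ω K]
    (n : ℕ) (x : Fin n → K), IsTranscendenceBasis Ω x →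
    ∀ g : Submodule K (Derivation Ω K K), (∀ A ∈ g, ∀ B ∈ g, ⁅A, B⁆ ∈ g) →
    ∀ D ∈ g, AlgLeaves D → ∀ (q : ℕ) (f h : Fin q → K), Null g f h →
    ∃ (r m : ℕ) (c : Fin r → K) (u : Fin r → Fin m → K) (y : Fin m → K),
      (∀ j, D (y j) = 0) ∧ (∀ l j, D (u l j) = 0) ∧ (∀ l, Null g (u l) y) ∧
      ∀ (M : Type) [Field M] (e : K →+* M) (δ : K → M), DerAlong Ω e δ →
        ∑ l, e (f l) * δ (h l) = ∑ l, e (c l) * ∑ j, e (u l j) * δ (y j)

/-- J5: the tangent property for one more leaf. -/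
def SStep : Prop := ∀ (Ω K : Type) [Field Ω] [CharZero Ω] [Field K] [Algebra Ω K]
    (n : ℕ) (x : Fin n → K), IsTranscendenceBasis Ω x →
    ∀ g : Submodule K (Derivation Ω K K), (∀ A ∈ g, ∀ B ∈ g, ⁅A, B⁆ ∈ g) →
    ∀ D ∈ g, AlgLeaves D →
    ∀ (M M' : Type) [Field M] [Algebra Ω M] [Field M'] [Algebra Ω M'] (j : M →ₐ[Ω] M')
      (s e : K →ₐ[Ω] M) (e' : K →ₐ[Ω] M'), Tgt g s e → (∀ b, D b = 0 → e' b = j (e b)) →
      Tgt g (j.comp s) e'

/-- J6: one more leaf exists. -/
def SNext : Prop := ∀ (Ω K M : Type) [Field Ω] [CharZero Ω] [Field K] [Algebra Ω K] [Field M]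
    [Algebra Ω M] (D : Derivation Ω K K) (s e : K →ₐ[Ω] M),
    ∃ (M' : Type) (_ : Field M') (_ : Algebra Ω M') (j : M →ₐ[Ω] M') (e' : K →ₐ[Ω] M'),
      (∀ b, D b = 0 → e' b = j (e b)) ∧
      ∀ (q : ℕ) (a b : Fin q → K), ∑ l, j (s (a l)) * e' (b l) = 0 →
        ∑ l, s (a l) * e (b l) = 0 ∧ ∑ l, j (s (a l)) * e' (D (b l)) = 0

/-- The chain ends at a generic point of a set which is stable under `D`. -/
def Stable {Ω K : Type} [Field Ω] [Field K] [Algebra Ω K] {M : Type} [Field M] [Algebra Ω M]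
    (s e : K →ₐ[Ω] M) (D : Derivation Ω K K) : Prop :=
  ∀ (q : ℕ) (a b : Fin q → K), ∑ l, s (a l) * e (b l) = 0 → ∑ l, s (a l) * e (D (b l)) = 0

/-- J7: a chain of maximal transcendence degree has a stable end. -/
def SMax : Prop := ∀ (Ω K : Type) [Field Ω] [CharZero Ω] [Field K] [Algebra Ω K]
    (n : ℕ) (x : Fin n → K), IsTranscendenceBasis Ω x →
    ∀ g : Submodule K (Derivation Ω K K), (∀ A ∈ g, ∀ B ∈ g, ⁅A, B⁆ ∈ g) →
    ∃ (M : Type) (_ : Field M) (_ : Algebra Ω M) (s e : K →ₐ[Ω] M), Tgt g s e ∧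
      ∀ D ∈ g, AlgLeaves D → Stable s e D

/-- J8: a stable end is generic if there are no invariants. -/
def SIndep : Prop := ∀ (Ω K I M : Type) [Field Ω] [CharZero Ω] [Field K] [Algebra Ω K] [Field M]
    [Algebra Ω M] (s e : K →ₐ[Ω] M) (D : I → Derivation Ω K K),
    (∀ a : K, (∀ i, D i a = 0) → a ∈ Set.range (algebraMap Ω K)) → (∀ i, Stable s e (D i)) →
    ∀ (n : ℕ) (x : Fin n → K), AlgebraicIndependent Ω x →
      AlgebraicIndependent s.fieldRange (fun l => e (x l))

/-- J9: conclusion for derivations. -/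
def SFinal : Prop := ∀ (Ω K I : Type) [Field Ω] [CharZero Ω] [Field K] [Algebra Ω K]
    (n : ℕ) (x : Fin n → K), IsTranscendenceBasis Ω x →
    ∀ g : Submodule K (Derivation Ω K K), (∀ A ∈ g, ∀ B ∈ g, ⁅A, B⁆ ∈ g) →
    ∀ D : I → Derivation Ω K K, (∀ i, D i ∈ g) → (∀ i, AlgLeaves (D i)) →
    (∀ a : K, (∀ i, D i a = 0) → a ∈ Set.range (algebraMap Ω K)) → g = ⊤

/-- J10: conclusion for subfields. -/
def SMain : Prop := ∀ (Ω K I : Type) [Field Ω] [CharZero Ω] [Field K] [Algebra Ω K]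
    (n : ℕ) (x : Fin n → K), IsTranscendenceBasis Ω x →
    ∀ L : I → IntermediateField Ω K, (∀ i, ∃ t : K, Transcendental (L i) t ∧
      ∀ b : K, IsAlgebraic (IntermediateField.adjoin (L i) {t}) b) →
    (∀ a : K, (∀ i, IsAlgebraic (L i) a) → a ∈ Set.range (algebraMap Ω K)) →
    LieSubalgebra.lieSpan Ω (Derivation Ω K K) {D | ∃ i, ∀ a ∈ L i, D a = 0} = ⊤

end Pool.Agent.Y742.CN
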