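import Pool.Agent.Y467.CN.Coord
import Pool.Agent.Y467.CN.Descent
import Pool.Agent.Y467.CN.Indep
import Pool.Agent.Y467.CN.Next
import Pool.Agent.Y274.CN.Exp
import Pool.Agent.Y427.CN.Gen
import Pool.Agent.Y363.CN.Step
import Pool.Agent.Y618.CN.Max
import Pool.Agent.Y929.CN.Final
import Pool.Agent.Y606.CN.MainCN

/-!
# Lie algebras generated by the tangent fields of curve fibrations (helper742, with helpers 274, 363,
427, 467, 606, 618, 929)
-/

set_option autoImplicit false

namespace Pool.Agent.Y742.CN

theorem sGenerate : SGenerate :=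
  Pool.Agent.Y427.CN.sGenerate Pool.Agent.Y467.CN.sDescent Pool.Agent.Y467.CN.sCoord

theorem sMax : SMax :=
  Pool.Agent.Y618.CN.sMax (Pool.Agent.Y363.CN.sStep sGenerate)
    (Pool.Agent.Y467.CN.sNext Pool.Agent.Y274.CN.Exp.sExp)

theorem sFinal : SFinal :=
  Pool.Agent.Y929.CN.sFinal Pool.Agent.Y467.CN.sCoord Pool.Agent.Y467.CN.sExtend sMax
    (Pool.Agent.Y467.CN.sIndep Pool.Agent.Y467.CN.sDescent)

/-- If no element of `K` outside `Ω` is algebraic over all subfields `L i`, of transcendence degree
one below `K`, then the derivations which vanish on one of the `L i` generate the Lie algebra of all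
derivations. -/
theorem sMain : SMain :=
  Pool.Agent.Y606.CN.sMain Pool.Agent.Y467.CN.sCoord sFinal

end Pool.Agent.Y742.CN
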